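import Pool.Agent.Helper84.SQ.GoalsB

/-!
# Adding rows to a system (packet SQ-BXO of helper84)
-/

namespace Pool.Agent.Helper22.SQ

open Pool.Agent.Helper84.SQ
open Pool.Agent.Helper81.CC Pool.Agent.Bin

theorem length_unitR (d i : ℕ) (s : Zn) : (unitR d i s).length = d := by
  simp [unitR]

theorem lz_unitR (d i : ℕ) (s : Zn) (hi : i < d) :
    lz d (unitR d i s) = Pi.single (⟨i, hi⟩ : Fin d) (Zn.val s) := by
  funext j
  have hj : j.val < (unitR d i s).length := by rw [length_unitR]; exact j.2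
  unfold lz
  rw [List.getD_eq_getElem _ _ hj]
  unfold unitR
  rw [List.getElem_map, List.getElem_range, Pi.single_apply]
  by_cases h : j.val = i
  · rw [if_pos h, if_pos (Fin.ext h)]
  · rw [if_neg h, if_neg (fun h' => h (congrArg Fin.val h'))]
    simp

theorem sum_unitR (d i : ℕ) (s : Zn) (hi : i < d) (x : Fin d → ℤ) :
    ∑ j, lz d (unitR d i s) j * x j = Zn.val s * x ⟨i, hi⟩ := by
  rw [lz_unitR d i s hi]
  rw [Finset.sum_eq_single (⟨i, hi⟩ : Fin d)]
  · rw [Pi.single_eq_same]
  · intro j _ hj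
    rw [Pi.single_eq_of_ne hj, zero_mul]
  · intro h
    exact absurd (Finset.mem_univ _) h

/-- The added rows are unit vectors up to sign. -/
def Unit1 (d : ℕ) (R : List Row) : Prop :=
  ∀ r ∈ R, r.1.length = d ∧
    ((∃ j : Fin d, lz d r.1 = Pi.single j 1) ∨ (∃ j : Fin d, lz d r.1 = Pi.single j (-1)))

theorem ok_append (hT : TurStmt) {N d : ℕ} {R R' : List Row} {F : Obj} (h : Ok N d R F)
    (h' : Unit1 d R') : Ok N d (R ++ R') F where
  d1 := h.d1
  dN := h.dN
  len := by
    intro r hr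
    rcases List.mem_append.1 hr with hr | hr
    · exact h.len r hr
    · exact (h' r hr).1
  lenF := h.lenF
  tu := by
    apply hT _ _ _ (MR d R) _ h.tu
    intro i
    have hmem : (R ++ R').get i ∈ R ++ R' := List.get_mem _ _
    rcases List.mem_append.1 hmem with hr | hr
    · left
      obtain ⟨k, hk⟩ := List.mem_iff_get.1 hr
      refine ⟨k, ?_⟩
      unfold MR
      rw [hk]
    · right; right
      rcases (h' _ hr).2 with ⟨j, hj⟩ | ⟨j, hj⟩
      · left
        exact ⟨j, hj⟩
      · right; left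
        exact ⟨j, hj⟩
  bd := by
    intro x hx
    exact h.bd x fun r hr => hx r (List.mem_append_left _ hr)
  cq := h.cq
  ch := h.ch

theorem unit1_one (d i : ℕ) (hi : i < d) (c : Zn) (s : Zn) (hs : Zn.val s = 1 ∨ Zn.val s = -1) :
    (unitR d i s, c).1.length = d ∧
    ((∃ j : Fin d, lz d (unitR d i s, c).1 = Pi.single j 1) ∨
      (∃ j : Fin d, lz d (unitR d i s, c).1 = Pi.single j (-1))) := by
  refine ⟨length_unitR d i s, ?_⟩
  rcases hs with hs | hs
  · left
    exact ⟨⟨i, hi⟩, by rw [← hs]; exact lz_unitR d i s hi⟩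
  · right
    exact ⟨⟨i, hi⟩, by rw [← hs]; exact lz_unitR d i s hi⟩

theorem unit1_box (d : ℕ) (b : List Zn × List Zn) : Unit1 d (boxR d b) := by
  intro r hr
  unfold boxR at hr
  rcases List.mem_append.1 hr with hr | hr
  · obtain ⟨i, hi, rfl⟩ := List.mem_map.1 hr
    exact unit1_one d i (List.mem_range.1 hi) _ _ (Or.inl (by simp))
  · obtain ⟨i, hi, rfl⟩ := List.mem_map.1 hr
    exact unit1_one d i (List.mem_range.1 hi) _ _ (Or.inr (by simp))

theorem unit1_fix (d i : ℕ) (hi : i < d) (t : Zn) : Unit1 d (fixR d i t) := by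
  intro r hr
  unfold fixR at hr
  rcases List.mem_cons.1 hr with rfl | hr
  · exact unit1_one d i hi _ _ (Or.inl (by simp))
  · rcases List.mem_cons.1 hr with rfl | hr
    · exact unit1_one d i hi _ _ (Or.inr (by simp))
    · simp at hr

theorem mem_sol_append (d : ℕ) (R R' : List Row) (x : Fin d → ℤ) :
    x ∈ Sol d (R ++ R') ↔ x ∈ Sol d R ∧ x ∈ Sol d R' := by
  unfold Sol
  simp only [Set.mem_setOf_eq, List.mem_append]
  constructor
  · intro h
    exact ⟨fun r hr => h r (Or.inl hr), fun r hr => h r (Or.inr hr)⟩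
  · rintro ⟨h1, h2⟩ r (hr | hr)
    · exact h1 r hr
    · exact h2 r hr

theorem mem_sol_box (d : ℕ) (b : List Zn × List Zn) (x : Fin d → ℤ) :
    x ∈ Sol d (boxR d b) ↔ ∀ j : Fin d, lz d b.1 j ≤ x j ∧ x j ≤ lz d b.2 j := by
  unfold Sol boxR
  simp only [Set.mem_setOf_eq, List.mem_append]
  constructor
  · intro h j
    constructor
    · have := h (unitR d j (Zn.neg Zn.one), Zn.neg (b.1.getD j Zn.zero))
        (Or.inr (List.mem_map.2 ⟨j.val, List.mem_range.2 j.2, rfl⟩))
      simp only [sum_unitR d j.val _ j.2, Zn.val_neg, Zn.val_one] at this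
      unfold lz
      have h2 : x ⟨j.val, j.2⟩ = x j := rfl
      rw [h2] at this
      linarith
    · have := h (unitR d j Zn.one, b.2.getD j Zn.zero)
        (Or.inl (List.mem_map.2 ⟨j.val, List.mem_range.2 j.2, rfl⟩))
      simp only [sum_unitR d j.val _ j.2, Zn.val_one] at this
      unfold lz
      have h2 : x ⟨j.val, j.2⟩ = x j := rfl
      rw [h2] at this
      linarith
  · intro h r hr
    rcases hr with hr | hr
    · obtain ⟨i, hi, rfl⟩ := List.mem_map.1 hr
      have hi' := List.mem_range.1 hi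
      have := (h ⟨i, hi'⟩).2
      simp only [sum_unitR d i _ hi', Zn.val_one]
      unfold lz at this
      simp only at this
      linarith
    · obtain ⟨i, hi, rfl⟩ := List.mem_map.1 hr
      have hi' := List.mem_range.1 hi
      have := (h ⟨i, hi'⟩).1
      simp only [sum_unitR d i _ hi', Zn.val_one, Zn.val_neg]
      unfold lz at this
      simp only at this
      linarith

theorem mem_sol_fix (d i : ℕ) (hi : i < d) (t : Zn) (x : Fin d → ℤ) :
    x ∈ Sol d (fixR d i t) ↔ x ⟨i, hi⟩ = Zn.val t := by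
  unfold Sol fixR
  simp only [Set.mem_setOf_eq, List.mem_cons, List.not_mem_nil, or_false]
  constructor
  · intro h
    have h1 := h _ (Or.inl rfl)
    have h2 := h _ (Or.inr rfl)
    simp only [sum_unitR d i _ hi, Zn.val_one, Zn.val_neg] at h1 h2
    linarith
  · rintro h r (rfl | rfl)
    · simp only [sum_unitR d i _ hi, Zn.val_one]
      linarith
    · simp only [sum_unitR d i _ hi, Zn.val_one, Zn.val_neg]
      linarith

theorem getD_eobj (d i : ℕ) (t : Zn) (j : ℕ) :
    (eobj d i t).getD j (⟨0⟩, Zn.zero) = (⟨0⟩, (unitR d i t).getD j Zn.zero) := by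
  unfold eobj
  exact List.getD_map (fun a => ((⟨0⟩ : BN), a)) (n := j) (d := Zn.zero) (l := unitR d i t)

theorem qF_eobj (d i : ℕ) (t : Zn) (j : Fin d) : qF d (eobj d i t) j = 0 := by
  unfold qF
  rw [getD_eobj]
  simp

theorem hF_eobj (d i : ℕ) (t : Zn) (j : Fin d) :
    hF d (eobj d i t) j = lz d (unitR d i t) j := by
  unfold hF
  rw [getD_eobj]
  rfl

theorem bxo (hT : TurStmt) : BxoStmt := by
  intro N d R F h
  refine ⟨fun b => ⟨ok_append hT h (unit1_box d b), fun x => ?_⟩, fun i t hi =>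
    ⟨⟨ok_append hT h (unit1_fix d i hi t), fun x => ?_⟩, fun ht => ⟨?_, fun x => ?_⟩⟩⟩
  · rw [mem_sol_append, mem_sol_box]
  · rw [mem_sol_append, mem_sol_fix d i hi]
  · refine ⟨h.d1, h.dN, h.len, ?_, h.tu, h.bd, ?_, ?_⟩
    · unfold eobj
      rw [List.length_map, length_unitR]
    · intro j
      rw [qF_eobj]
      positivity
    · intro j
      rw [hF_eobj, lz_unitR d i t hi, Pi.single_apply]
      have h1 : (1 : ℤ) ≤ 2 ^ N := one_le_pow₀ (by norm_num)
      split_ifs
      · exact ht.trans h1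
      · rw [abs_zero]
        positivity
  · unfold fv
    have h1 : ∀ j : Fin d, qF d (eobj d i t) j * x j ^ 2 + hF d (eobj d i t) j * x j =
        lz d (unitR d i t) j * x j := by
      intro j
      rw [qF_eobj, hF_eobj]
      ring
    rw [Finset.sum_congr rfl fun j _ => h1 j]
    exact sum_unitR d i t hi x

end Pool.Agent.Helper22.SQ
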