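import Pool.Agent.Helper4.SQ.GoalsR
import Pool.Agent.Helper4.SQ.DE

/-!
Project SQ (MP_bb32d1_al), packet DLY: the entries of `delta(Y)`.  Model: packet EY (helper50).
-/

set_option autoImplicit false

namespace Pool.Agent.Helper22.SQ

open Pool.Agent.Helper19.SQ
open Pool.Agent.Helper4.SQ (scH dgH sc_dg sc_mul_dg scH_apply dgH_eq kk_map cm_sd qne VYm S_DLY)

variable {N l : ℕ} {q : ℂ}

theorem q2ne (hP : Par N l q) : q ^ 2 ≠ -1 := by
  intro h
  have h4 : q ^ 4 = 1 := by
    rw [show q ^ 4 = (q ^ 2) ^ 2 by ring, h]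
    norm_num
  have h5 : l ∣ 4 := hP.prim.dvd_of_pow_eq_one 4 h4
  have h6 := hP.h3
  have h7 := hP.odd
  have h8 : l ≤ 4 := Nat.le_of_dvd (by norm_num) h5
  interval_cases l
  · omega
  · exact absurd h7 (by decide)

theorem dl_cF (l : ℕ) :
    cF l (fun i => scH N (A N l q) (vF N i)) (fun i => dgH N (A N l q) (gK N l q i))
      (fun i => dgH N (A N l q) (gF N l q i)) = dF N l (gF N l q) (gK N l q) := by
  funext k
  ext a b
  rw [cF, kk_map, Matrix.add_apply, sc_mul_dg, dF, Matrix.of_apply, vF,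
    Matrix.of_apply, add_comm, dgH_eq, Matrix.diagonal_apply]
  congr 1
  split_ifs
  · rw [one_smul]; rfl
  · rw [zero_smul]

/-- `K'_a` times the entries of `F'°_ap`. -/
theorem vK_vF (hV : S_VRV) (hP : Par N l q) {a p : ℕ} (hap : a < p) (r s : Fin (N + 1)) :
    (vK N q a * rvo q (vF N) a p) r s =
      if (r : ℕ) = p ∧ (s : ℕ) = a ∧ p ≤ N then 1 else 0 := by
  rw [(hV N q (qne hP) a p hap).2.2.1, vK, Matrix.diagonal_mul, Matrix.of_apply]
  by_cases h : (r : ℕ) = p ∧ (s : ℕ) = a ∧ p ≤ N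
  · rw [if_pos h, if_neg (by omega), one_mul]
  · rw [if_neg h, mul_zero]

/-- the image of `K_a F°_ab`. -/
theorem dl_rvo (hCO : S_CO) (hV : S_VRV) (hR : S_VREP) (hKI : S_KI) (hKG : S_KG)
    (hP : Par N l q) (D : Dl N l q) {a b : ℕ} (hab : a < b) (r s : Fin (N + 1)) :
    D.dl (gK N l q a * rvo q (gF N l q) a b) r s =
      (vK N q a) r s • (gK N l q a * rvo q (gF N l q) a b) +
      (1 - q⁻¹ ^ 2) • ∑ p ∈ Finset.Ioo a b,
        (if (r : ℕ) = p ∧ (s : ℕ) = a ∧ p ≤ N then (1 : ℂ) else 0) •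
          (q • (gK N l q p * rvo q (gF N l q) p b)) +
      (if (r : ℕ) = b ∧ (s : ℕ) = a ∧ b ≤ N then (1 : ℂ) else 0) • gK N l q b := by
  have hq := qne hP
  have hl1 : 1 ≤ l := by have := hP.h3; omega
  have e1 : D.dl (rvo q (gF N l q) a b) = rvo q (cF l (fun i => scH N (A N l q) (vF N i))
      (fun i => dgH N (A N l q) (gK N l q i)) (fun i => dgH N (A N l q) (gF N l q i))) a b := by
    rw [dl_cF, ← rvo_map]
    congr 1
    funext k
    exact D.dl_F k
  have e2 : D.dl (gK N l q a) = scH N (A N l q) (vK N q a) * dgH N (A N l q) (gK N l q a) := by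
    rw [D.dl_K]
    ext i j
    rw [sc_mul_dg, dK, Matrix.of_apply, vK, Matrix.diagonal_apply]
    split_ifs <;> simp
  have hw := (hR N l q hP).1
  have hg := glA N l q
  have hco := hCO _ N l q _ _ _ _ _ _ hP.h3 hq (q2ne hP) (hw.map (scH N (A N l q)))
    (hg.map (dgH N (A N l q))) ⟨cm_sd _ _, cm_sd _ _, cm_sd _ _, cm_sd _ _, cm_sd _ _, cm_sd _ _,
      cm_sd _ _, cm_sd _ _, cm_sd _ _⟩ a b hab
  rw [map_mul, e1, e2, hco]
  obtain ⟨hk1, hk2, hk3, -, -, -⟩ := hKI _ l (gK N l q) hl1 hg.K_comm hg.K_pow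
  -- the three kinds of terms
  have t1 : (scH N (A N l q) (vK N q a) * dgH N (A N l q) (gK N l q a) *
      rvo q (fun i => dgH N (A N l q) (gF N l q i)) a b) r s =
      (vK N q a) r s • (gK N l q a * rvo q (gF N l q) a b) := by
    rw [rvo_map, mul_assoc, ← map_mul, sc_mul_dg]
  have t2 : ∀ p ∈ Finset.Ioo a b, (scH N (A N l q) (vK N q a) * dgH N (A N l q) (gK N l q a) *
      (rvo q (fun i => scH N (A N l q) (vF N i)) a p *
        rvo q (fun i => dgH N (A N l q) (gF N l q i)) p b *
        kk l (fun i => dgH N (A N l q) (gK N l q i)) p a)) r s =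
      (if (r : ℕ) = p ∧ (s : ℕ) = a ∧ p ≤ N then (1 : ℂ) else 0) •
          (q • (gK N l q p * rvo q (gF N l q) p b)) := by
    intro p hp
    rw [Finset.mem_Ioo] at hp
    rw [rvo_map, rvo_map, kk_map]
    have e3 : scH N (A N l q) (vK N q a) * dgH N (A N l q) (gK N l q a) *
        (scH N (A N l q) (rvo q (vF N) a p) * dgH N (A N l q) (rvo q (gF N l q) p b) *
        dgH N (A N l q) (kk l (gK N l q) p a)) =
        scH N (A N l q) (vK N q a * rvo q (vF N) a p) *
          dgH N (A N l q) (gK N l q a * rvo q (gF N l q) p b * kk l (gK N l q) p a) := by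
      have hc := sc_dg (rvo q (vF N) a p) (gK N l q a)
      rw [map_mul, map_mul, map_mul]
      simp only [mul_assoc]
      rw [← mul_assoc (dgH N (A N l q) (gK N l q a)), ← hc]
      simp only [mul_assoc]
    have e4 : gK N l q a * rvo q (gF N l q) p b * kk l (gK N l q) p a =
        q • (gK N l q p * rvo q (gF N l q) p b) := by
      have f1 := (hKG _ N l q _ _ _ hl1 hq hg a p b hp.2).2.2.1
      have f2 := (hKG _ N l q _ _ _ hl1 hq hg p p b hp.2).2.2.1
      have g1 : ew a p b = 0 := by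
        unfold ew
        rw [if_neg (by omega), if_neg (by omega), sub_zero]
      have g2 : ew p p b = 1 := by
        unfold ew
        rw [if_pos rfl, if_neg (by omega), sub_zero]
      rw [g1, neg_zero, zpow_zero, one_smul] at f1
      rw [g2, zpow_neg_one] at f2
      rw [f1, f2, smul_smul, mul_inv_cancel₀ hq, one_smul, kk, mul_assoc, ← mul_assoc (gK N l q a),
        hg.K_comm a p, mul_assoc (gK N l q p), hk1, mul_one]
    rw [e3, sc_mul_dg, vK_vF hV hP hp.1, e4]
  have t3 : (scH N (A N l q) (vK N q a) * dgH N (A N l q) (gK N l q a) *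
      (rvo q (fun i => scH N (A N l q) (vF N i)) a b *
        kk l (fun i => dgH N (A N l q) (gK N l q i)) b a)) r s =
      (if (r : ℕ) = b ∧ (s : ℕ) = a ∧ b ≤ N then (1 : ℂ) else 0) • gK N l q b := by
    rw [rvo_map, kk_map]
    have e3 : scH N (A N l q) (vK N q a) * dgH N (A N l q) (gK N l q a) *
        (scH N (A N l q) (rvo q (vF N) a b) * dgH N (A N l q) (kk l (gK N l q) b a)) =
        scH N (A N l q) (vK N q a * rvo q (vF N) a b) *
          dgH N (A N l q) (gK N l q a * kk l (gK N l q) b a) := by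
      have hc := sc_dg (rvo q (vF N) a b) (gK N l q a)
      rw [map_mul, map_mul]
      simp only [mul_assoc]
      rw [← mul_assoc (dgH N (A N l q) (gK N l q a)), ← hc]
      simp only [mul_assoc]
    have e4 : gK N l q a * kk l (gK N l q) b a = gK N l q b := by
      rw [kk, ← mul_assoc, hg.K_comm a b, mul_assoc, hk1, mul_one]
    rw [e3, sc_mul_dg, vK_vF hV hP hab, e4]
  rw [mul_add, mul_add, Matrix.add_apply, Matrix.add_apply, t1, t3, mul_smul_comm,
    Matrix.smul_apply, Finset.mul_sum, Matrix.sum_apply, Finset.sum_congr rfl t2]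

/-- the right side. -/
theorem rhs_eq (q : ℂ) (F K : ℕ → A N l q) (a b r s : Fin (N + 1)) :
    ∑ p : Fin (N + 1), VYm N q (a, r) (p, s) • Yent q F K p b =
      (if r = s then (if (s : ℕ) = a then q else 1) else 0 : ℂ) • Yent q F K a b +
      (if (s : ℕ) = a ∧ (a : ℕ) < r then (q - q⁻¹) else 0) • Yent q F K r b := by
  have h1 : ∀ p : Fin (N + 1), VYm N q (a, r) (p, s) • Yent q F K p b =
      (if a = p then (if r = s then (if (s : ℕ) = a then q else 1) else 0 : ℂ) • Yent q F K a b
        else 0) +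
      (if r = p then (if (s : ℕ) = a ∧ (a : ℕ) < r then (q - q⁻¹) else 0) • Yent q F K r b
        else 0) := by
    intro p
    unfold VYm
    rw [Matrix.of_apply]
    by_cases h2 : a = p
    · subst h2
      rw [if_pos rfl, if_pos rfl]
      have h4 : (if s = a then q else 1) = (if (s : ℕ) = a then q else 1) := by
        simp only [Fin.ext_iff]
      by_cases h3 : r = a
      · subst h3
        have h5 : ¬ ((s : ℕ) = r ∧ (r : ℕ) < r) := fun h => lt_irrefl _ h.2
        rw [if_pos rfl, if_neg h5, zero_smul, add_zero, h4]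
      · rw [if_neg h3, add_zero, h4]
    · rw [if_neg h2, if_neg h2, zero_add]
      by_cases h3 : r = p
      · subst h3
        rw [if_pos rfl]
        simp only [Fin.ext_iff, Fin.lt_def]
        by_cases h4 : (a : ℕ) < r
        · rw [if_pos h4]
          by_cases h5 : (s : ℕ) = a
          · rw [if_pos ⟨trivial, h5⟩, if_pos ⟨h5, h4⟩]
          · rw [if_neg (fun h => h5 h.2), if_neg (fun h => h5 h.1)]
        · rw [if_neg h4, if_neg (fun h => h4 h.2)]
      · rw [if_neg h3]
        have h4 : ¬ (r = p ∧ s = a) := fun h => h3 h.1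
        simp only [h4, if_false, ite_self, zero_smul]
  rw [Finset.sum_congr rfl fun p _ => h1 p, Finset.sum_add_distrib, Finset.sum_ite_eq,
    Finset.sum_ite_eq, if_pos (Finset.mem_univ _), if_pos (Finset.mem_univ _)]

theorem sDLY (hCO : S_CO) (hV : S_VRV) (hR : S_VREP) (hKI : S_KI) (hKG : S_KG) : S_DLY := by
  intro N l q hP D a b r s
  have hq := qne hP
  rw [rhs_eq]
  have hY0 : ∀ c d : ℕ, d < c → Yent q (gF N l q) (gK N l q) c d = 0 := by
    intro c d h
    unfold Yent
    rw [if_neg (by omega), if_neg (by omega)]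
  have hY1 : ∀ c : ℕ, Yent q (gF N l q) (gK N l q) c c = gK N l q c := fun c => if_pos rfl
  have hY2 : ∀ c d : ℕ, c < d → Yent q (gF N l q) (gK N l q) c d =
      (q - q⁻¹) • (gK N l q c * rvo q (gF N l q) c d) := by
    intro c d h
    unfold Yent
    rw [if_neg (by omega), if_pos h]
  rcases lt_trichotomy (b : ℕ) a with hab | hab | hab
  · rw [hY0 _ _ hab, map_zero, smul_zero, zero_add]
    by_cases h : (s : ℕ) = a ∧ (a : ℕ) < r
    · rw [hY0 r b (by omega), smul_zero]
      rfl
    · rw [if_neg h, zero_smul]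
      rfl
  · rw [hab, hY1, D.dl_K, dK, Matrix.of_apply]
    have h1 : (if (s : ℕ) = a ∧ (a : ℕ) < r then (q - q⁻¹) else 0) •
        Yent q (gF N l q) (gK N l q) r a = 0 := by
      by_cases h : (s : ℕ) = a ∧ (a : ℕ) < r
      · rw [hY0 r a h.2, smul_zero]
      · rw [if_neg h, zero_smul]
    rw [h1, add_zero]
    by_cases h2 : r = s
    · rw [if_pos h2, if_pos h2, h2]
    · rw [if_neg h2, if_neg h2, zero_smul]
  · rw [hY2 _ _ hab, map_smul, Matrix.smul_apply, dl_rvo hCO hV hR hKI hKG hP D hab]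
    have h1 : (vK N q a) r s = if r = s then (if (s : ℕ) = a then q else 1) else 0 := by
      rw [vK, Matrix.diagonal_apply]
      by_cases h7 : r = s
      · rw [if_pos h7, if_pos h7, h7]
      · rw [if_neg h7, if_neg h7]
    have h2 : ∑ p ∈ Finset.Ioo (a : ℕ) b,
        (if (r : ℕ) = p ∧ (s : ℕ) = a ∧ p ≤ N then (1 : ℂ) else 0) •
          (q • (gK N l q p * rvo q (gF N l q) p b)) =
        if (s : ℕ) = a ∧ (a : ℕ) < r ∧ (r : ℕ) < b then
          (q • (gK N l q r * rvo q (gF N l q) r b)) else 0 := by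
      by_cases h3 : (s : ℕ) = a ∧ (a : ℕ) < r ∧ (r : ℕ) < b
      · rw [if_pos h3, Finset.sum_eq_single (r : ℕ)]
        · rw [if_pos ⟨rfl, h3.1, by omega⟩, one_smul]
        · intro p _ hp
          rw [if_neg (fun h => hp h.1.symm), zero_smul]
        · intro h
          exact absurd (Finset.mem_Ioo.mpr h3.2) h
      · rw [if_neg h3]
        refine Finset.sum_eq_zero fun p hp => ?_
        rw [Finset.mem_Ioo] at hp
        rw [if_neg, zero_smul]
        rintro ⟨g1, g2, g3⟩
        exact h3 ⟨g2, by omega, by omega⟩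
    rw [h1, h2, smul_add, smul_add, add_assoc, smul_comm (q - q⁻¹)
      (if r = s then (if (s : ℕ) = a then q else 1) else 0 : ℂ)]
    congr 1
    by_cases h3 : (s : ℕ) = a
    · rcases lt_trichotomy (r : ℕ) b with h4 | h4 | h4
      · rw [if_neg (by omega : ¬ ((r : ℕ) = b ∧ (s : ℕ) = a ∧ (b : ℕ) ≤ N)), zero_smul, smul_zero,
          add_zero, hY2 r b h4]
        by_cases h5 : (a : ℕ) < r
        · rw [if_pos ⟨h3, h5, h4⟩, if_pos ⟨h3, h5⟩]
          simp only [smul_smul]
          congr 1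
          field_simp
        · rw [if_neg (by omega), if_neg (by omega), zero_smul, smul_zero, smul_zero]
      · rw [h4, hY1, if_neg (by omega), if_pos ⟨rfl, h3, by omega⟩, if_pos ⟨h3, hab⟩, smul_zero,
          smul_zero, zero_add, one_smul]
      · rw [if_neg (by omega), if_neg (by omega), hY0 r b h4, smul_zero, smul_zero, zero_smul,
          smul_zero, smul_zero, add_zero]
    · rw [if_neg (fun h => h3 h.1), if_neg (fun h => h3 h.2.1), if_neg (fun h => h3 h.1), zero_smul,
        zero_smul, smul_zero, smul_zero, add_zero]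

end Pool.Agent.Helper22.SQ
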