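import Pool.Agent.Helper4.SQ.GoalsL

/-!
Project SQ (MP_bb32d1_al), packet UP0: the vanishing principle.
-/

set_option autoImplicit false

namespace Pool.Agent.Helper22.SQ

open Pool.Agent.Helper4.SQ (wsp mem_wsp instLieEnd S_UP0)

noncomputable section

variable {V : Type} [AddCommGroup V] [Module ℂ V]

/-- iterated brackets -/
def Xk (e X : Module.End ℂ V) : ℕ → Module.End ℂ V
  | 0 => X
  | k + 1 => e * Xk e X k - Xk e X k * e

theorem wt_step (h e A : Module.End ℂ V) (a b : ℂ) (he : h * e - e * h = a • e)
    (hA : h * A - A * h = b • A) :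
    h * (e * A - A * e) - (e * A - A * e) * h = (b + a) • (e * A - A * e) := by
  have h1 : h * (e * A - A * e) - (e * A - A * e) * h =
      (h * e - e * h) * A + e * (h * A - A * h) - (h * A - A * h) * e - A * (h * e - e * h) := by
    noncomm_ring
  rw [h1, he, hA, smul_mul_assoc, mul_smul_comm, smul_mul_assoc, mul_smul_comm, add_smul, smul_sub,
    smul_sub]
  abel

theorem f_step (f e A B c : Module.End ℂ V) (a b : ℂ) (hfe : e * f - f * e = c)
    (hcA : c * A - A * c = a • A) (hfA : f * A - A * f = b • B) (hB : b • (e * B - B * e) = b • A) :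
    f * (e * A - A * e) - (e * A - A * e) * f = (b - a) • A := by
  have h1 : f * (e * A - A * e) - (e * A - A * e) * f =
      -((e * f - f * e) * A - A * (e * f - f * e)) + (e * (f * A - A * f) - (f * A - A * f) * e) := by
    noncomm_ring
  rw [h1, hfe, hcA, hfA, mul_smul_comm, smul_mul_assoc, ← smul_sub, hB, sub_smul]
  abel

theorem sUP0 : S_UP0 := by
  intro I _ V _ _ h types hspan x y hxy e f he hf hef β X hX hβ hfX
  -- brackets as commutators
  have he' : ∀ z, h z * e - e * h z =
      (((if z = x then 1 else 0) - (if z = y then 1 else 0) : ℤ) : ℂ) • e := he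
  have hef' : e * f - f * e = h x - h y := hef
  have hX' : ∀ z, h z * X - X * h z = ((β z : ℤ) : ℂ) • X := hX
  have hfX' : f * X - X * f = 0 := hfX
  -- weights
  have hw : ∀ (k : ℕ) (z : I), h z * Xk e X k - Xk e X k * h z =
      (((β z : ℤ) : ℂ) + k * (((if z = x then 1 else 0) - (if z = y then 1 else 0) : ℤ) : ℂ)) •
        Xk e X k := by
    intro k z
    induction k with
    | zero =>
      rw [Nat.cast_zero, zero_mul, add_zero]
      exact hX' z
    | succ k ih =>
      have h1 := wt_step (h z) e (Xk e X k) _ _ (he' z) ih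
      change h z * (e * Xk e X k - Xk e X k * e) - (e * Xk e X k - Xk e X k * e) * h z = _
      rw [h1]
      change _ = _ • (e * Xk e X k - Xk e X k * e)
      congr 1
      push_cast
      ring
  have hwx : ∀ k : ℕ, h x * Xk e X k - Xk e X k * h x = (((β x + k : ℤ)) : ℂ) • Xk e X k := by
    intro k
    rw [hw k x, if_pos rfl, if_neg hxy]
    congr 1
    push_cast
    ring
  have hwc : ∀ k : ℕ, (h x - h y) * Xk e X k - Xk e X k * (h x - h y) =
      ((((β x - β y) + 2 * k : ℤ)) : ℂ) • Xk e X k := by
    intro k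
    have h1 : (h x - h y) * Xk e X k - Xk e X k * (h x - h y) =
        (h x * Xk e X k - Xk e X k * h x) - (h y * Xk e X k - Xk e X k * h y) := by noncomm_ring
    rw [h1, hw k x, hw k y, if_pos rfl, if_neg hxy, if_pos rfl, if_neg hxy.symm, ← sub_smul]
    congr 1
    push_cast
    ring
  -- the action of `f`
  have hfk : ∀ k : ℕ, f * Xk e X (k + 1) - Xk e X (k + 1) * f =
      (-(((k + 1) * ((β x - β y) + k) : ℤ) : ℂ)) • Xk e X k := by
    intro k
    induction k with
    | zero =>
      have h1 := f_step f e X 0 (h x - h y) _ 0 hef' (hwc 0) (by rw [hfX', smul_zero]) (by simp)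
      change f * (e * X - X * e) - (e * X - X * e) * f = _ • X
      rw [h1]
      congr 1
      push_cast
      ring
    | succ k ih =>
      have h1 := f_step f e (Xk e X (k + 1)) (Xk e X k) (h x - h y) _ _ hef' (hwc (k + 1)) ih rfl
      change f * (e * Xk e X (k + 1) - Xk e X (k + 1) * e) -
        (e * Xk e X (k + 1) - Xk e X (k + 1) * e) * f = _
      rw [h1]
      congr 1
      push_cast
      ring
  have hback : ∀ k : ℕ, Xk e X (k + 1) = 0 → Xk e X k = 0 := by
    intro k hk
    have h1 := hfk k
    rw [hk, mul_zero, zero_mul, sub_zero] at h1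
    have h2 : (-(((k + 1) * ((β x - β y) + k) : ℤ) : ℂ)) ≠ 0 := by
      rw [neg_ne_zero, Int.cast_ne_zero]
      have h3 : (0 : ℤ) < (k + 1) * ((β x - β y) + k) := by positivity
      exact h3.ne'
    exact (smul_eq_zero.mp h1.symm).resolve_left h2
  have hdown : ∀ k : ℕ, Xk e X k = 0 → X = 0 := by
    intro k
    induction k with
    | zero => exact fun h1 => h1
    | succ k ih => exact fun h1 => ih (hback k h1)
  -- eigenvalues of `h x`
  have heig : ∀ (w : V) (μ : ℤ), h x w = ((μ : ℤ) : ℂ) • w → (∀ m' ∈ types, μ ≠ m' x) → w = 0 := by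
    intro w μ hw hμ
    by_contra hw0
    let P : Polynomial ℂ := ∏ m' ∈ types, (Polynomial.X - Polynomial.C (((m' x : ℤ)) : ℂ))
    have hev : ∀ (v : V) (ν : ℂ), h x v = ν • v → Polynomial.aeval (h x) P v = P.eval ν • v := by
      intro v ν hv
      by_cases hv0 : v = 0
      · rw [hv0, map_zero, smul_zero]
      · exact Module.End.aeval_apply_of_hasEigenvector
          ⟨Module.End.mem_eigenspace_iff.mpr hv, hv0⟩
    have hker : (⊤ : Submodule ℂ V) ≤ LinearMap.ker (Polynomial.aeval (h x) P) := by
      rw [← hspan]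
      refine iSup₂_le fun m' hm' => ?_
      intro v hv
      rw [LinearMap.mem_ker, hev v _ (hv x)]
      have h1 : P.eval (((m' x : ℤ)) : ℂ) = 0 := by
        simp only [P, Polynomial.eval_prod]
        refine Finset.prod_eq_zero hm' ?_
        simp
      rw [h1, zero_smul]
    have h2 : Polynomial.aeval (h x) P w = 0 := hker (Submodule.mem_top (x := w))
    rw [hev w _ hw] at h2
    have h3 : P.eval ((μ : ℤ) : ℂ) ≠ 0 := by
      simp only [P, Polynomial.eval_prod]
      refine Finset.prod_ne_zero_iff.mpr fun m' hm' => ?_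
      simp only [Polynomial.eval_sub, Polynomial.eval_X, Polynomial.eval_C]
      rw [sub_ne_zero]
      exact_mod_cast hμ m' hm'
    exact hw0 ((smul_eq_zero.mp h2).resolve_left h3)
  -- a large index
  let K : ℕ := (∑ m ∈ types, ∑ m' ∈ types, (m' x - m x - β x).natAbs) + 1
  have hK : ∀ m ∈ types, ∀ m' ∈ types, (m' x - m x - β x).natAbs < K := by
    intro m hm m' hm'
    have h1 : (m' x - m x - β x).natAbs ≤ ∑ m' ∈ types, (m' x - m x - β x).natAbs :=
      Finset.single_le_sum (f := fun m' => (m' x - m x - β x).natAbs) (fun _ _ => Nat.zero_le _) hm'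
    have h2 : ∑ m' ∈ types, (m' x - m x - β x).natAbs ≤
        ∑ m ∈ types, ∑ m' ∈ types, (m' x - m x - β x).natAbs :=
      Finset.single_le_sum (f := fun m => ∑ m' ∈ types, (m' x - m x - β x).natAbs)
        (fun _ _ => Nat.zero_le _) hm
    exact Nat.lt_succ_of_le (le_trans h1 h2)
  refine hdown K ?_
  have hker : (⊤ : Submodule ℂ V) ≤ LinearMap.ker (Xk e X K) := by
    rw [← hspan]
    refine iSup₂_le fun m hm => ?_
    intro v hv
    rw [LinearMap.mem_ker]
    refine heig _ (m x + β x + K) ?_ ?_
    · have h1 := congrArg (fun T : Module.End ℂ V => T v) (hwx K)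
      have h2 : h x (Xk e X K v) - Xk e X K (h x v) = (((β x + K : ℤ)) : ℂ) • Xk e X K v := h1
      rw [hv x, map_smul, sub_eq_iff_eq_add, ← add_smul] at h2
      rw [h2]
      congr 1
      push_cast
      ring
    · intro m' hm' hcon
      have h1 := hK m hm m' hm'
      have h2 : m' x - m x - β x = (K : ℤ) := by linarith
      rw [h2, Int.natAbs_natCast] at h1
      exact lt_irrefl _ h1
  ext v
  exact hker (Submodule.mem_top (x := v))

end

end Pool.Agent.Helper22.SQ
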